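import Mathlib

/-!
A finite positive log-concave sequence (a Polya frequency sequence of order 2) for which
the Toeplitz determinant polynomial `P_n^2` has a zero with positive real part.
-/

namespace Pool.Agent.Results.MP_cea7e0_an.Unstable

open Polynomial

/-- The polynomial `P_n^r(z) = ∑ (n; k_1,...,k_r) f_{k_1} ... f_{k_r} det[(z+j-i)_{k_i}]`, the sum
over ordered `r`-tuples of natural numbers with sum `n`; `ascPochhammer ℝ k` is the rising
factorial `z(z+1)...(z+k-1)`. -/
noncomputable def toeplitzPoly (n r : ℕ) (f : ℕ → ℝ) : ℝ[X] :=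
  ∑ k ∈ Finset.Nat.antidiagonalTuple r n,
    C ((Nat.multinomial Finset.univ k : ℝ) * ∏ i, f (k i)) *
      Matrix.det (Matrix.of fun i j : Fin r =>
        (ascPochhammer ℝ (k i)).comp (X + C (((j : ℕ) : ℝ) - ((i : ℕ) : ℝ))))

/-- The finite sequence `f_0, ..., f_n` extended by zero to all integers. -/
def ext (n : ℕ) (f : ℕ → ℝ) (k : ℤ) : ℝ :=
  if 0 ≤ k ∧ k ≤ (n : ℤ) then f k.toNat else 0

/-- `f_0, ..., f_n` is a Polya frequency sequence of order `d`: every minor of order at most `d`
of the infinite Toeplitz matrix `(f_{i-j})` is nonnegative. -/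
def IsPF (d n : ℕ) (f : ℕ → ℝ) : Prop :=
  ∀ m : ℕ, m ≤ d → ∀ a b : Fin m → ℤ, StrictMono a → StrictMono b →
    0 ≤ Matrix.det (Matrix.of fun i j : Fin m => ext n f (a i - b j))

/-- Rising factorial on Gaussian integers (computable). -/
def gpoch (z : GaussianInt) : ℕ → GaussianInt
  | 0 => 1
  | k + 1 => gpoch z k * (z + (k : GaussianInt))

/-- The witness sequence. -/
def fz : ℕ → ℕ
  | 0 => 1
  | 1 => 906390
  | 2 => 927895
  | 3 => 938480
  | 4 => 949065
  | 5 => 959650
  | _ => 970235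

/-- `P_19^2` evaluated at a Gaussian integer. -/
def gP (z : GaussianInt) : GaussianInt :=
  ∑ k ∈ Finset.range 20, ((Nat.choose 19 k * fz k * fz (19 - k) : ℕ) : GaussianInt) *
    (gpoch z k * gpoch z (19 - k) - gpoch (z + 1) k * gpoch (z - 1) (19 - k))

theorem gpoch_spec (z : GaussianInt) (k : ℕ) :
    (gpoch z k : ℂ) = (ascPochhammer ℂ k).eval (z : ℂ) := by
  induction k with
  | zero => simp [gpoch]
  | succ k ih => simp [gpoch, ascPochhammer_succ_eval, ih]

theorem aeval_toeplitzPoly_two (n : ℕ) (f : ℕ → ℝ) (z : ℂ) :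
    aeval z (toeplitzPoly n 2 f) = ∑ k ∈ Finset.range (n + 1),
      ((Nat.choose n k : ℂ) * (f k : ℂ) * (f (n - k) : ℂ)) *
        ((ascPochhammer ℂ k).eval z * (ascPochhammer ℂ (n - k)).eval z -
          (ascPochhammer ℂ k).eval (z + 1) * (ascPochhammer ℂ (n - k)).eval (z - 1)) := by
  have hev : ∀ (m : ℕ) (c : ℝ), aeval z ((ascPochhammer ℝ m).comp (X + C c)) =
      (ascPochhammer ℂ m).eval (z + (c : ℂ)) := by
    intro m c
    rw [aeval_comp]
    simp only [map_add, aeval_X, aeval_C]
    rw [← ascPochhammer_map (algebraMap ℝ ℂ) m, eval_map, aeval_def]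
    simp
  rw [toeplitzPoly, Finset.Nat.antidiagonalTuple_two, Finset.sum_map, map_sum,
    Finset.Nat.sum_antidiagonal_eq_sum_range_succ_mk]
  refine Finset.sum_congr rfl fun k hk => ?_
  have hk' : k ≤ n := Nat.lt_succ_iff.mp (Finset.mem_range.mp hk)
  have hm : Nat.multinomial Finset.univ ![k, n - k] = Nat.choose n k := by
    rw [Nat.multinomial_univ_two]
    rw [Nat.choose_eq_factorial_div_factorial hk']
    congr 2
    omega
  simp only [Equiv.toEmbedding_apply, piFinTwoEquiv_symm_apply, Matrix.det_fin_two,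
    Matrix.of_apply]
  rw [aeval_mul, aeval_sub, aeval_mul, aeval_mul, aeval_C, hev, hev, hev, hev]
  have e0 : (Fin.cons k (Fin.cons (n - k) finZeroElim) : Fin 2 → ℕ) = ![k, n - k] := rfl
  rw [e0, hm]
  simp only [Fin.prod_univ_two, Matrix.cons_val_zero, Matrix.cons_val_one,
    Fin.val_zero, Fin.val_one]
  push_cast
  have e1 : z + (0 - 0) = z := by ring
  have e2 : z + (1 - 1) = z := by ring
  have e3 : z + (1 - 0) = z + 1 := by ring
  have e4 : z + (0 - 1) = z - 1 := by ring
  rw [e1, e2, e3, e4]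
  simp only [Complex.coe_algebraMap]
  ring

theorem gP_spec (z : GaussianInt) :
    aeval (z : ℂ) (toeplitzPoly 19 2 (fun k => (fz k : ℝ))) = (gP z : ℂ) := by
  rw [aeval_toeplitzPoly_two, gP]
  simp [gpoch_spec]

theorem fz_logconcave : ∀ s : Fin 20, ∀ t : Fin 20, ∀ p : Fin 20, s < p → p < t →
    fz s * fz t ≤ fz p * fz (s + t - p) := by
  decide +kernel

theorem fz_pos (k : ℕ) : 0 < fz k := by
  unfold fz
  split <;> norm_num

theorem isPF_fz : IsPF 2 19 (fun k => (fz k : ℝ)) := by
  intro m hm a b ha hb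
  have hnn : ∀ k : ℤ, 0 ≤ ext 19 (fun k => (fz k : ℝ)) k := by
    intro k
    unfold ext
    split
    · positivity
    · exact le_rfl
  interval_cases m
  · simp
  · simp only [Matrix.det_fin_one, Matrix.of_apply]
    exact hnn _
  · rw [Matrix.det_fin_two]
    simp only [Matrix.of_apply]
    have hab : a 0 < a 1 := ha (by decide)
    have hbb : b 0 < b 1 := hb (by decide)
    by_cases h : 0 ≤ a 0 - b 1 ∧ a 1 - b 0 ≤ 19
    · obtain ⟨h0, h1⟩ := h
      obtain ⟨s, hs⟩ := Int.eq_ofNat_of_zero_le h0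
      obtain ⟨t, ht⟩ := Int.eq_ofNat_of_zero_le (show 0 ≤ a 1 - b 0 by omega)
      obtain ⟨p, hp⟩ := Int.eq_ofNat_of_zero_le (show 0 ≤ a 0 - b 0 by omega)
      obtain ⟨q, hq⟩ := Int.eq_ofNat_of_zero_le (show 0 ≤ a 1 - b 1 by omega)
      have hts : t < 20 := by omega
      have hps : s < p := by omega
      have hpt : p < t := by omega
      have hq' : q = s + t - p := by omega
      have key := fz_logconcave ⟨s, by omega⟩ ⟨t, hts⟩ ⟨p, by omega⟩ hps hpt
      simp only at key
      rw [← hq'] at key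
      have key' : (fz s : ℝ) * (fz t : ℝ) ≤ (fz p : ℝ) * (fz q : ℝ) := by exact_mod_cast key
      have es : ext 19 (fun k => (fz k : ℝ)) (a 0 - b 1) = (fz s : ℝ) := by
        rw [hs]; unfold ext; rw [if_pos]; · simp
        constructor <;> omega
      have et : ext 19 (fun k => (fz k : ℝ)) (a 1 - b 0) = (fz t : ℝ) := by
        rw [ht]; unfold ext; rw [if_pos]; · simp
        constructor <;> omega
      have ep : ext 19 (fun k => (fz k : ℝ)) (a 0 - b 0) = (fz p : ℝ) := by
        rw [hp]; unfold ext; rw [if_pos]; · simp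
        constructor <;> omega
      have eq : ext 19 (fun k => (fz k : ℝ)) (a 1 - b 1) = (fz q : ℝ) := by
        rw [hq]; unfold ext; rw [if_pos]; · simp
        constructor <;> omega
      rw [es, et, ep, eq]
      linarith
    · have hz : ext 19 (fun k => (fz k : ℝ)) (a 0 - b 1) *
          ext 19 (fun k => (fz k : ℝ)) (a 1 - b 0) = 0 := by
        by_cases h0 : 0 ≤ a 0 - b 1
        · have h1 : ¬ a 1 - b 0 ≤ 19 := fun h1 => h ⟨h0, h1⟩
          have : ext 19 (fun k => (fz k : ℝ)) (a 1 - b 0) = 0 := by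
            unfold ext; rw [if_neg]; intro hh; exact h1 (by exact_mod_cast hh.2)
          rw [this, mul_zero]
        · have : ext 19 (fun k => (fz k : ℝ)) (a 0 - b 1) = 0 := by
            unfold ext; rw [if_neg]; intro hh; exact h0 hh.1
          rw [this, zero_mul]
      rw [hz, sub_zero]
      exact mul_nonneg (hnn _) (hnn _)

/-- There are `n`, `r ≥ 2` and a strictly positive finite Polya frequency sequence
`f_0, ..., f_n` of order `r` such that `P_n^r` is not identically zero and has a zero with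
positive real part; so `P_n^r` is not Hurwitz stable. (Witness: `n = 19`, `r = 2`,
zero `1 + 6i`.) -/
theorem result :
    ∃ (n r : ℕ) (f : ℕ → ℝ), 2 ≤ r ∧ (∀ k, k ≤ n → 0 < f k) ∧ IsPF r n f ∧
      toeplitzPoly n r f ≠ 0 ∧
      ∃ z : ℂ, 0 < z.re ∧ aeval z (toeplitzPoly n r f) = 0 := by
  refine ⟨19, 2, fun k => (fz k : ℝ), le_rfl, ?_, isPF_fz, ?_, ((⟨1, 6⟩ : GaussianInt) : ℂ), ?_, ?_⟩
  · intro k _
    show (0 : ℝ) < (fz k : ℝ)
    exact_mod_cast fz_pos k
  · intro h
    have h1 := gP_spec ⟨1, 0⟩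
    rw [h, map_zero] at h1
    have h2 : gP ⟨1, 0⟩ = 0 := by
      rw [← GaussianInt.toComplex_eq_zero]
      exact h1.symm
    revert h2
    decide +kernel
  · simp [GaussianInt.toComplex_def]
  · rw [gP_spec]
    have : gP ⟨1, 6⟩ = 0 := by decide +kernel
    rw [this]
    simp

end Pool.Agent.Results.MP_cea7e0_an.Unstable
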